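import Pool.Agent.Run7.h343.PV.Iface2

/-!
# Project PV, piece SMH
-/

set_option autoImplicit false

namespace Pool.Agent.Run7.h874.PV

open Finset Complex Pool.Agent.Run7.h343.PV

/-- the bound of OFF2 at the parameters of SMH -/
theorem numerics {J k U δ P q p : ℝ} (hJ : 12 ≤ J) (hδJ : 1 ≤ δ * J) (hU : 4 ≤ U)
    (hk : k ≤ 10 * J + 1) (hq : q = Real.exp (20 * J * U))
    (hP : Real.exp ((20/3 + 20 * δ) * J * U) ≤ P) (hp : p ≤ Real.exp U) :
    4 * Real.exp U * (2 * (Real.exp U * Real.exp ((k + 1) * U) / P) *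
      (10 * Real.sqrt p * Real.exp U * (1 + 4 / U) *
        (Real.exp ((k + 1) * U) / Real.exp ((k - 1) * U) ^ 2) *
      (2 * Real.exp ((k + 1) * U) * Real.sqrt (Real.exp U * Real.exp ((k + 1) * U) / q) +
        Real.sqrt (q / P) * (3 + Real.log q)))) ≤ 320 + 160 * (3 + 20 * J) := by
  set g := (20/3 + 20 * δ) * J with hg
  have hP0 : 0 < Real.exp (g * U) := Real.exp_pos _
  have hPp : 0 < P := hP0.trans_le hP
  have hU0 : 0 < U := by linarith
  have b1 : Real.exp U * Real.exp ((k + 1) * U) / P ≤ Real.exp ((k + 2 - g) * U) := by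
    rw [div_le_iff₀ hPp]
    calc Real.exp U * Real.exp ((k + 1) * U)
        = Real.exp ((k + 2 - g) * U) * Real.exp (g * U) := by
          rw [← Real.exp_add, ← Real.exp_add]; congr 1; ring
      _ ≤ Real.exp ((k + 2 - g) * U) * P := mul_le_mul_of_nonneg_left hP (Real.exp_pos _).le
  have b2 : Real.sqrt p ≤ Real.exp (U / 2) := by
    rw [Real.exp_half]; exact Real.sqrt_le_sqrt hp
  have b3 : 1 + 4 / U ≤ 2 := by
    have : 4 / U ≤ 1 := by rw [div_le_one hU0]; exact hU
    linarith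
  have b4 : Real.exp ((k + 1) * U) / Real.exp ((k - 1) * U) ^ 2 = Real.exp ((3 - k) * U) := by
    rw [← Real.exp_nat_mul, ← Real.exp_sub]
    congr 1
    push_cast; ring
  have b5 : Real.sqrt (Real.exp U * Real.exp ((k + 1) * U) / q)
      = Real.exp ((k + 2 - 20 * J) * U / 2) := by
    rw [hq, Real.exp_half, ← Real.exp_add, ← Real.exp_sub]
    congr 2
    ring
  have b6 : Real.sqrt (q / P) ≤ Real.exp ((20 * J - g) * U / 2) := by
    rw [Real.exp_half]
    apply Real.sqrt_le_sqrt
    rw [div_le_iff₀ hPp, hq]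
    calc Real.exp (20 * J * U) = Real.exp ((20 * J - g) * U) * Real.exp (g * U) := by
          rw [← Real.exp_add]; congr 1; ring
      _ ≤ Real.exp ((20 * J - g) * U) * P := mul_le_mul_of_nonneg_left hP (Real.exp_pos _).le
  have b7 : Real.log q = 20 * J * U := by rw [hq, Real.log_exp]
  rw [b4, b5, b7]
  have h3 : 0 ≤ 3 + 20 * J * U := by positivity
  have main : 4 * Real.exp U * (2 * (Real.exp U * Real.exp ((k + 1) * U) / P) *
      (10 * Real.sqrt p * Real.exp U * (1 + 4 / U) * Real.exp ((3 - k) * U) *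
      (2 * Real.exp ((k + 1) * U) * Real.exp ((k + 2 - 20 * J) * U / 2) +
        Real.sqrt (q / P) * (3 + 20 * J * U)))) ≤
      4 * Real.exp U * (2 * Real.exp ((k + 2 - g) * U) *
      (10 * Real.exp (U / 2) * Real.exp U * 2 * Real.exp ((3 - k) * U) *
      (2 * Real.exp ((k + 1) * U) * Real.exp ((k + 2 - 20 * J) * U / 2) +
        Real.exp ((20 * J - g) * U / 2) * (3 + 20 * J * U)))) := by
    gcongr
  refine main.trans ?_
  have e1 : Real.exp U * Real.exp ((k + 2 - g) * U) * Real.exp (U / 2) * Real.exp U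
      * Real.exp ((3 - k) * U) * (Real.exp ((k + 1) * U) * Real.exp ((k + 2 - 20 * J) * U / 2))
      = Real.exp ((19/2 + 3/2 * k - 10 * J - g) * U) := by
    simp only [← Real.exp_add]
    congr 1; ring
  have e2 : Real.exp U * Real.exp ((k + 2 - g) * U) * Real.exp (U / 2) * Real.exp U
      * Real.exp ((3 - k) * U) * Real.exp ((20 * J - g) * U / 2)
      = Real.exp ((15/2 + 10 * J - 3/2 * g) * U) := by
    simp only [← Real.exp_add]
    congr 1; ring
  have e3 : 4 * Real.exp U * (2 * Real.exp ((k + 2 - g) * U) *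
      (10 * Real.exp (U / 2) * Real.exp U * 2 * Real.exp ((3 - k) * U) *
      (2 * Real.exp ((k + 1) * U) * Real.exp ((k + 2 - 20 * J) * U / 2) +
        Real.exp ((20 * J - g) * U / 2) * (3 + 20 * J * U))))
      = 320 * (Real.exp U * Real.exp ((k + 2 - g) * U) * Real.exp (U / 2) * Real.exp U
      * Real.exp ((3 - k) * U) * (Real.exp ((k + 1) * U) * Real.exp ((k + 2 - 20 * J) * U / 2)))
      + 160 * ((Real.exp U * Real.exp ((k + 2 - g) * U) * Real.exp (U / 2) * Real.exp U
      * Real.exp ((3 - k) * U) * Real.exp ((20 * J - g) * U / 2)) * (3 + 20 * J * U)) := by ring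
  rw [e3, e1, e2]
  have g1 : g = 20/3 * J + 20 * (δ * J) := by rw [hg]; ring
  have c1 : Real.exp ((19/2 + 3/2 * k - 10 * J - g) * U) ≤ 1 := by
    rw [Real.exp_le_one_iff]
    apply mul_nonpos_of_nonpos_of_nonneg _ hU0.le
    rw [g1]; linarith
  have c2 : Real.exp ((15/2 + 10 * J - 3/2 * g) * U) ≤ Real.exp (-U) := by
    apply Real.exp_le_exp.mpr
    have : 15/2 + 10 * J - 3/2 * g ≤ -1 := by rw [g1]; linarith
    nlinarith
  have c3 : Real.exp (-U) * (3 + 20 * J * U) ≤ 3 + 20 * J := by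
    have d1 : Real.exp (-U) ≤ 1 := by rw [Real.exp_le_one_iff]; linarith
    have d2 : U * Real.exp (-U) ≤ 1 := by
      rw [Real.exp_neg, ← div_eq_mul_inv, div_le_one (Real.exp_pos _)]
      have := Real.add_one_le_exp U
      linarith
    have : Real.exp (-U) * (3 + 20 * J * U) = 3 * Real.exp (-U) + 20 * J * (U * Real.exp (-U)) := by
      ring
    rw [this]
    have : 20 * J * (U * Real.exp (-U)) ≤ 20 * J * 1 :=
      mul_le_mul_of_nonneg_left d2 (by positivity)
    linarith
  have c4 : Real.exp ((15/2 + 10 * J - 3/2 * g) * U) * (3 + 20 * J * U) ≤ 3 + 20 * J :=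
    (mul_le_mul_of_nonneg_right c2 h3).trans c3
  linarith

theorem t_SMH (hSM : S_SM) (hOFF : S_OFF2) (hDIAG : S_DIAG) : S_SMH := by
  obtain ⟨CD, hCD, hD⟩ := hDIAG
  intro δ hδ
  refine ⟨max 12 ⌈1 / δ⌉₊, ?_⟩
  intro J hJ
  have hJ12 : 12 ≤ J := (le_max_left _ _).trans hJ
  have hJδ : 1 ≤ δ * J := by
    have h1 : (⌈1 / δ⌉₊ : ℝ) ≤ J := by exact_mod_cast (le_max_right _ _).trans hJ
    have h2 := (Nat.le_ceil (1 / δ)).trans h1
    rw [div_le_iff₀ hδ] at h2
    linarith
  have hJr : (12:ℝ) ≤ J := by exact_mod_cast hJ12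
  refine ⟨CD * (50 * (10 * J + 3) + 1) + (320 + 160 * (3 + 20 * J)), by positivity, 80 * J, ?_⟩
  intro p ν m hmν _ χ h i hp hp2 hν h2m hPq hχ hi1 hi2 hh hLip hlo hhi
  -- the parameters
  have hp3 : 3 ≤ p := by
    have := hp.two_le
    omega
  have hp3r : (3:ℝ) ≤ p := by exact_mod_cast hp3
  have hp0 : (0:ℝ) < p := by linarith
  have hlogp : 1 ≤ Real.log p := by
    rw [Real.le_log_iff_exp_le hp0]
    have := Real.exp_one_lt_d9
    linarith
  have hJ0 : (0:ℝ) < 20 * J := by positivity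
  set U := UU J p ν with hUdef
  have hlogq : Real.log ((p:ℝ) ^ ν) = ν * Real.log p := by rw [Real.log_pow]
  have h20 : 20 * J * U = ν * Real.log p := by
    rw [hUdef]; unfold UU; rw [hlogq]; field_simp
  have hνr : (80:ℝ) * J ≤ ν := by exact_mod_cast hν
  have hU4 : 4 * Real.log p ≤ U := by
    have h1 : 20 * J * (4 * Real.log p) ≤ 20 * J * U := by
      rw [h20]
      have := mul_le_mul_of_nonneg_right hνr (show 0 ≤ Real.log p by linarith)
      linarith
    exact le_of_mul_le_mul_left h1 hJ0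
  have hU : 4 ≤ U := by linarith
  have hU0 : 0 < U := by linarith
  have hq : (p:ℝ) ^ ν = Real.exp (20 * J * U) := by
    rw [h20, ← hlogq, Real.exp_log (by positivity)]
  have hpU : (p:ℝ) ≤ Real.exp U := by
    rw [← Real.exp_log hp0]
    apply Real.exp_le_exp.mpr
    linarith
  have hP : Real.exp ((20/3 + 20 * δ) * J * U) ≤ (p:ℝ) ^ m := by
    refine le_trans (le_of_eq ?_) hPq
    rw [hq, ← Real.exp_mul]
    congr 1; ring
  have hν3 : ν ≤ 3 * m := by
    have h1 := Real.log_le_log (Real.exp_pos _) hP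
    rw [Real.log_exp, Real.log_pow] at h1
    have h2 : (20/3 + 20 * δ) * J * U = (1/3 + δ) * (20 * J * U) := by ring
    rw [h2, h20] at h1
    have h3 : (1/3 : ℝ) * (ν * Real.log p) ≤ m * Real.log p := by
      have : 0 ≤ δ * (ν * Real.log p) := by positivity
      linarith
    have h4 : (ν:ℝ) * Real.log p ≤ (3 * m) * Real.log p := by linarith
    have h5 := le_of_mul_le_mul_right h4 (by linarith : 0 < Real.log p)
    exact_mod_cast h5
  have hm1 : 1 ≤ m := by omega
  set k : ℝ := (J:ℝ) + i with hk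
  have hi1r : (1:ℝ) ≤ i := by exact_mod_cast hi1
  have hi2r : (i:ℝ) ≤ 9 * J + 1 := by exact_mod_cast hi2
  have hkle : k ≤ 10 * J + 1 := by rw [hk]; linarith
  have hkge : 13 ≤ k := by rw [hk]; linarith
  set x := Real.exp ((k - 1) * U) with hx
  set X := Real.exp ((k + 1) * U) with hX
  have hlogx : Real.log x = (k - 1) * U := Real.log_exp _
  have hlogX : Real.log X = (k + 1) * U := Real.log_exp _
  have hY : YY J p ν = Real.exp U := rfl
  have hN : Real.exp ((10 * J + 2) * U) ≤ (NN J p ν : ℝ) := Nat.le_ceil _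
  have hXN : X ≤ (NN J p ν : ℝ) := by
    refine le_trans (Real.exp_le_exp.mpr ?_) hN
    apply mul_le_mul_of_nonneg_right _ hU0.le
    linarith
  have h1x : 1 < x := by
    rw [hx]
    apply Real.one_lt_exp_iff.mpr
    have : 0 < k - 1 := by linarith
    positivity
  have hxX : x ≤ X := by
    apply Real.exp_le_exp.mpr
    apply mul_le_mul_of_nonneg_right _ hU0.le
    linarith
  have hLip' : ∀ s t, |h s - h t| ≤ 4 / U * |s - t| := by
    intro s t
    refine (hLip s t).trans (le_of_eq ?_)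
    ring
  have hlo' : ∀ t, t ≤ Real.log x → h t = 0 := by
    intro t ht
    apply hlo t
    rw [hlogx, hk] at ht
    exact ht
  have hhi' : ∀ t, Real.log X ≤ t → h t = 0 := by
    intro t ht
    apply hhi t
    rw [hlogX, hk] at ht
    exact ht
  have hZX : Real.exp U * X < (p:ℝ) ^ (ν - 1) := by
    have h1 : (p:ℝ) ^ (ν - 1) * p = (p:ℝ) ^ ν := by
      rw [← pow_succ]
      congr 1
      omega
    have h2 : Real.exp U * X * p < (p:ℝ) ^ (ν - 1) * p := by
      rw [h1, hq]
      calc Real.exp U * X * p ≤ Real.exp U * X * Real.exp U :=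
            mul_le_mul_of_nonneg_left hpU (by positivity)
        _ = Real.exp ((k + 3) * U) := by
            rw [hX, ← Real.exp_add, ← Real.exp_add]; congr 1; ring
        _ < Real.exp (20 * J * U) := by
            apply Real.exp_lt_exp.mpr
            apply mul_lt_mul_of_pos_right _ hU0
            linarith
    exact lt_of_mul_lt_mul_right h2 hp0.le
  set E : ℝ := 2 * (Real.exp U * X / (p : ℝ) ^ m) * (10 * Real.sqrt p * Real.exp U * (1 + 4 / U) *
      (X / x ^ 2) * (2 * X * Real.sqrt (Real.exp U * X / (p : ℝ) ^ ν) +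
        Real.sqrt ((p : ℝ) ^ ν / (p : ℝ) ^ m) * (3 + Real.log ((p : ℝ) ^ ν)))) with hE
  have hlog0 : 0 ≤ Real.log ((p:ℝ) ^ ν) := by rw [hlogq]; positivity
  have hE0 : 0 ≤ E := by rw [hE]; positivity
  have hE4 : 4 * Real.exp U * E ≤ 320 + 160 * (3 + 20 * J) :=
    numerics hJr hJδ hU hkle hq hP hpU
  -- second moment
  have hsm := hSM p ν m hmν χ (YY J p ν) E h (NN J p ν) hp hm1
    (by rw [hY]; exact Real.one_le_exp hU0.le) hE0
    (fun t ht => by
      apply hhi' t
      have h1 := Real.log_le_log (Real.exp_pos _) hXN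
      exact h1.trans ht.le)
    (fun l₁ l₂ a1 a2 a3 a4 a5 a6 => by
      rw [hY] at a3 a4
      exact hOFF p ν m χ x X (4 / U) (Real.exp U) h l₁ l₂ (NN J p ν) hp hp2 hm1 hν3 hχ h1x hxX hXN
        (by positivity) hh hLip' hlo' hhi' a1 a2 a3 a4 a5 a6 hZX)
  -- diagonal
  have hdiag := hD (Real.exp U) x ((k + 1) * U) (U / 4) h
    (by
      have h1 := Real.add_one_le_exp U
      linarith)
    (by
      rw [← Real.exp_nat_mul, hx]
      apply Real.exp_le_exp.mpr
      push_cast
      apply mul_le_mul_of_nonneg_right _ hU0.le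
      linarith)
    (by linarith) hh
    (fun s t => by
      refine (hLip s t).trans (le_of_eq ?_)
      field_simp)
    (fun t ht => hhi' t (by rw [hlogX]; exact ht)) (⌊YY J p ν⌋₊ * NN J p ν)
  have hzero : ∀ n : ℕ, 1 ≤ n → (n:ℝ) ≤ x → DD (Real.exp U) h n = 0 := by
    intro n hn hnx
    unfold DD
    apply Finset.sum_eq_zero
    intro l hl
    have hl0 : 0 < l := Nat.pos_of_mem_divisors hl
    have hl1 : (1:ℝ) ≤ l := by exact_mod_cast hl0
    have hn0 : (0:ℝ) < n := by exact_mod_cast hn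
    have h1 : Real.log ((n:ℝ) / l) ≤ Real.log x := by
      apply Real.log_le_log (by positivity)
      refine le_trans ?_ hnx
      exact div_le_self hn0.le hl1
    rw [hlo' _ h1, mul_zero]
  have hsum : ∑ n ∈ Icc 1 (⌊YY J p ν⌋₊ * NN J p ν), DD (YY J p ν) h n ^ 2 / n
      = ∑ n ∈ (Icc 1 (⌊YY J p ν⌋₊ * NN J p ν)).filter (fun n : ℕ => x < (n:ℝ)),
        DD (Real.exp U) h n ^ 2 / n := by
    rw [Finset.sum_filter, hY]
    refine Finset.sum_congr rfl fun n hn => ?_
    split_ifs with hc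
    · rfl
    · rw [hzero n (Finset.mem_Icc.mp hn).1 (not_lt.mp hc)]
      simp
  rw [hsum] at hsm
  refine hsm.trans ?_
  rw [mul_comm]
  apply mul_le_mul_of_nonneg_right _ (by positivity)
  have hfin : CD * ((|(k + 1) * U| + Real.log (Real.exp U)) *
      (1 / Real.log (Real.exp U) + 1 / (U / 4)) ^ 2 * (1 + Real.log (Real.exp U)) + 1) ≤
      CD * (50 * (10 * J + 3) + 1) := by
    apply mul_le_mul_of_nonneg_left _ hCD.le
    rw [Real.log_exp, abs_of_nonneg (by positivity)]
    have e : ((k + 1) * U + U) * (1 / U + 1 / (U / 4)) ^ 2 * (1 + U)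
        = 25 * (k + 2) * ((1 + U) / U) := by
      field_simp; ring
    rw [e]
    have h1 : (1 + U) / U ≤ 2 := by rw [div_le_iff₀ hU0]; linarith
    have h2 : 25 * (k + 2) * ((1 + U) / U) ≤ 25 * (k + 2) * 2 :=
      mul_le_mul_of_nonneg_left h1 (by linarith)
    linarith
  have := hdiag.trans hfin
  rw [hY] at this ⊢
  linarith

end Pool.Agent.Run7.h874.PV
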